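import Pool.Agent.R565.DU.Deg
import Pool.Agent.R565.DU.Gal
import Pool.Agent.Results.MP_a59382_lc.CubicEquations

/-!
# The pole relation in different number fields: descent, and no uniform definition

`R_K = PoleRel K Q` for a set `Q` of primes (in the problem the primes `1 mod 4`).

(1) Descent. If one equation in `n` quantified variables defines `R_L` in the number field `L` then
for every subfield `K` one equation in `n [L : K]` quantified variables defines `R_K` in `K`.

(2) So for a positive answer for all number fields it is enough to consider number fields which are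
Galois over `ℚ` and in which a given polynomial splits (e.g. which contain `√-1`).

(3), (4), (5) show that the formula has to depend on the number field.

(3) Let `φ(x, y)` be an existential formula with parameters in a number field `K`:

  `φ(x, y)`: there are `i` and `z` such that `f i j (x, y, z) = 0` for all `j` and `h i (x, y, z) ≠ 0`,

and let `b ∈ K` be without pole at some place above a prime of `Q`. Then there is a bound for the
number of elements `a` with `φ(a, b)` which holds in all number fields containing `K`, or there are a
number field `M` containing `K` and a rational number `q` such that in every number field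
containing `M` the formula `φ(q, b)` holds and `R(q, b)` does not.

(4) For every `φ` there is a number field `M` such that `φ` defines `R_L` in no number field `L`
containing `M`.

(5) For one equation `f = 0` and a quantified variable of degree `e > 0` in `f` one can take such an
`M` with `[M : K] ≤ e`. So, if an equation defines `R_L` in `L` for every extension `L / K` of
degree `≤ d`, then its degree in every quantified variable which occurs in it is greater than `d`.

The proofs. (1): restriction of scalars by means of the norm form; `R_L` induces `R_K`. (3): by the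
theorem of Chevalley the elements `a` of the algebraic closure of `K` with `φ(a, b)` form a finite
or a cofinite set. A cofinite set contains some `q = 1 / p ^ k` with `p ∈ Q`, and `φ(q, b)` has a
witness in some number field.
-/

set_option autoImplicit false

namespace Pool.Agent.Results.MP_a59382_lc.DescentUniformity

open MvPolynomial
open Pool.Agent.Results.MP_a59382_lc.CubicEquations (PoleRel)
open Pool.Agent.R565.DU (Holds)

/-- The pole relation of `K` is defined in `K` by one existential equation. -/
def Definable (K : Type) [Field K] [NumberField K] (Q : Set ℕ) : Prop :=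
  ∃ (n : ℕ) (f : MvPolynomial (Fin 2 ⊕ Fin n) K), ∀ a b : K,
    (∃ z : Fin n → K, eval (Sum.elim ![a, b] z) f = 0) ↔ PoleRel K Q a b

theorem result :
    -- (1) descent
    (∀ (K L : Type) [Field K] [NumberField K] [Field L] [NumberField L] [Algebra K L] (Q : Set ℕ)
      (n : ℕ) (f : MvPolynomial (Fin 2 ⊕ Fin n) L),
      (∀ a b : L, (∃ z : Fin n → L, eval (Sum.elim ![a, b] z) f = 0) ↔ PoleRel L Q a b) →
      ∃ g : MvPolynomial (Fin 2 ⊕ Fin (n * Module.finrank K L)) K, ∀ a b : K,
        (∃ z : Fin (n * Module.finrank K L) → K, eval (Sum.elim ![a, b] z) g = 0) ↔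
          PoleRel K Q a b) ∧
    -- (2) it is enough to consider Galois number fields in which a given polynomial splits
    (∀ (Q : Set ℕ) (P : Polynomial ℚ), P ≠ 0 →
      (∀ (K : Type) [Field K] [NumberField K],
        IsGalois ℚ K → (P.map (algebraMap ℚ K)).Splits → Definable K Q) →
      ∀ (K : Type) [Field K] [NumberField K], Definable K Q) ∧
    -- (3) an existential formula has uniformly few solutions in all extensions, or it does not
    -- imply the pole relation in all large extensions
    (∀ (K : Type) [Field K] [NumberField K] (Q : Set ℕ) (b : K),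
      (∃ v : IsDedekindDomain.HeightOneSpectrum (NumberField.RingOfIntegers K),
        (∃ p : ℕ, p.Prime ∧ p ∈ Q ∧ ((p : NumberField.RingOfIntegers K) ∈ v.asIdeal)) ∧
          ¬ 1 < v.valuation K b) →
      ∀ (k : ℕ) (n s : Fin k → ℕ) (f : ∀ i, Fin (s i) → MvPolynomial (Fin 2 ⊕ Fin (n i)) K)
        (h : ∀ i, MvPolynomial (Fin 2 ⊕ Fin (n i)) K),
      (∃ N : ℕ, ∀ (L : Type) [Field L] [NumberField L] [Algebra K L],
        {a : L | Holds f h a (algebraMap K L b)}.encard ≤ N) ∨
      ∃ (M : Type) (_ : Field M) (_ : NumberField M) (_ : Algebra K M) (q : ℚ),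
        ∀ (L : Type) [Field L] [NumberField L] [Algebra K L] (_ : M →ₐ[K] L),
          Holds f h (q : L) (algebraMap K L b) ∧ ¬ PoleRel L Q (q : L) (algebraMap K L b)) ∧
    -- (4) no existential formula defines the pole relation in all large number fields
    (∀ (K : Type) [Field K] [NumberField K] (Q : Set ℕ), (∃ p ∈ Q, p.Prime) →
      ∀ (k : ℕ) (n s : Fin k → ℕ) (f : ∀ i, Fin (s i) → MvPolynomial (Fin 2 ⊕ Fin (n i)) K)
        (h : ∀ i, MvPolynomial (Fin 2 ⊕ Fin (n i)) K),
      ∃ (M : Type) (_ : Field M) (_ : NumberField M) (_ : Algebra K M),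
        ∀ (L : Type) [Field L] [NumberField L] [Algebra K L] (_ : M →ₐ[K] L),
          ¬ ∀ a b : L, Holds f h a b ↔ PoleRel L Q a b) ∧
    -- (5) for one equation: the degree
    (∀ (K : Type) [Field K] [NumberField K] (Q : Set ℕ), (∃ p ∈ Q, p.Prime) →
      ∀ (n : ℕ) (f : MvPolynomial (Fin 2 ⊕ Fin n) K) (i : Fin n), f.degreeOf (Sum.inr i) ≠ 0 →
      ∃ (M : Type) (_ : Field M) (_ : NumberField M) (_ : Algebra K M) (q : ℚ) (m : ℤ),
        Module.finrank K M ≤ f.degreeOf (Sum.inr i) ∧
        ∀ (L : Type) [Field L] [NumberField L] [Algebra K L] (_ : M →ₐ[K] L),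
          (∃ z : Fin n → L, aeval (Sum.elim ![(q : L), (m : L)] z) f = 0) ∧
            ¬ PoleRel L Q (q : L) (m : L)) := by
  have h1 : ∀ (K L : Type) [Field K] [NumberField K] [Field L] [NumberField L] [Algebra K L]
      (Q : Set ℕ) (n : ℕ) (f : MvPolynomial (Fin 2 ⊕ Fin n) L),
      (∀ a b : L, (∃ z : Fin n → L, eval (Sum.elim ![a, b] z) f = 0) ↔ PoleRel L Q a b) →
      ∃ g : MvPolynomial (Fin 2 ⊕ Fin (n * Module.finrank K L)) K, ∀ a b : K,
        (∃ z : Fin (n * Module.finrank K L) → K, eval (Sum.elim ![a, b] z) g = 0) ↔
          PoleRel K Q a b := by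
    intro K L _ _ _ _ _ Q n f hf
    have hfin : FiniteDimensional K L := Module.Finite.right ℚ K L
    let e := Module.finBasis K L
    obtain ⟨g, hg⟩ := Pool.Agent.R565.DU.weil e f
    refine ⟨rename (Sum.map id finProdFinEquiv) g, fun a b => ?_⟩
    have hpr : PoleRel K Q a b ↔ PoleRel L Q (algebraMap K L a) (algebraMap K L b) :=
      (Pool.Agent.R565.DU.pr_iff (K := K) (L := L) Q a b).symm
    rw [hpr, ← hf]
    have hev : ∀ z : Fin (n * Module.finrank K L) → K,
        eval (Sum.elim ![a, b] z) (rename (Sum.map id finProdFinEquiv) g) =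
          eval (Sum.elim ![a, b] fun s => z (finProdFinEquiv s)) g := by
      intro z
      rw [eval_rename]
      congr 2
      funext s
      rcases s with s | s <;> rfl
    constructor
    · rintro ⟨z, hz⟩
      rw [hev] at hz
      exact ⟨_, (hg a b _).1 hz⟩
    · rintro ⟨z, hz⟩
      refine ⟨fun s => e.repr (z (finProdFinEquiv.symm s).1) (finProdFinEquiv.symm s).2, ?_⟩
      rw [hev]
      refine (hg a b _).2 ?_
      have h2 : (fun i => ∑ j, e.repr (z (finProdFinEquiv.symm (finProdFinEquiv (i, j))).1)
          (finProdFinEquiv.symm (finProdFinEquiv (i, j))).2 • e j) = z := by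
        funext i
        simp only [Equiv.symm_apply_apply]
        exact e.sum_repr (z i)
      exact (congrArg (fun w => eval (Sum.elim ![algebraMap K L a, algebraMap K L b] w) f) h2).trans
        hz
  refine ⟨h1, ?_, ?_, ?_, ?_⟩
  · intro Q P hP H K _ _
    obtain ⟨L, _, _, _, hg, hs⟩ := Pool.Agent.R565.DU.exists_galois K P hP
    obtain ⟨n, f, hf⟩ := H L hg hs
    obtain ⟨g, hg⟩ := h1 K L Q n f hf
    exact ⟨_, g, hg⟩
  · intro K _ _ Q b hb k n s f h
    exact Pool.Agent.R565.DU.dichotomy K Q b hb f h
  · intro K _ _ Q hQ k n s f h
    exact Pool.Agent.R565.DU.no_uniform K Q hQ f h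
  · intro K _ _ Q hQ n f i hi
    exact Pool.Agent.R565.DU.degree_bound K Q hQ f i hi

end Pool.Agent.Results.MP_a59382_lc.DescentUniformity
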