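import Pool.Agent.R565.PU.Cp
import Pool.Agent.Results.MP_a59382_lc.QuarticDoubleCovers

/-!
# The pole relation is not defined by norm varieties, quadrics and unirational varieties

Let `K` be a number field and let `Q` be a rich set of rational primes, for example the primes
`p = 1 mod 4`. A *block* is a finite union of sets of `K`-points, each of which is empty or dominated
over `K` by a product of affine spaces and of double covers `w² = f(z)` branched along smooth
quartics: it contains a Zariski dense image of a rational map from such a product. In particular the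
`K`-points of unirational varieties are blocks. We show that the following sets are blocks:
* norm varieties `{z : N_{L/K}(z₁ b₁ + … + z_n b_n) = c}`, for all finite extensions `L` of `K`, all
  bases `b` of `L` over `K` and all `c` in `K`;
* affine quadrics `{z : f(z) = 0}`, for all polynomials `f` of degree at most two (singular,
  reducible, …);
* the affine spaces and the quartic double covers of the starting file `QuarticDoubleCovers`.

We consider finite unions `U` of relations between `a, b ∈ K` of the following two kinds: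
* `∃ z, f(a, b, z) = 0`, where `f` has degree at most three in `(a, z)` (see `CubicEquations`);
* `a` is a value of a rational function `p/q` at a point of a product of blocks; here the blocks, `p`
  and `q` depend in an arbitrary way on `b`.

If for one `b` without pole above `Q`, for which all the sets in question are blocks, all `a` with
`U(a, b)` satisfy the pole relation (that is, have no pole above `Q`), then each relation of the
second kind holds only for finitely many `a`, the set of all `a` with `U(a, b)` is thin and it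
misses infinitely many rational integers. In particular `U` is not the relation `R_K` of the
problem.

The proof for norm varieties: if `N(x) = c ≠ 0` then `y ↦ x yⁿ / N(y)`, `n = [L : K]`, is a rational
map from the affine space `L` to the variety `N = c`. Over the algebraic closure every point `z` of
the variety is a value: one takes roots of `z / x` in all factors of the algebra `L ⊗ K̄`, with
product one. The proof for quadrics: projection from a smooth `K`-point; if there is none, the
`K`-points form an affine subspace.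
-/

set_option autoImplicit false

namespace Pool.Agent.Results.MP_a59382_lc.UnirationalFibres

open MvPolynomial Module Pool.Agent.TH766.HP Pool.Agent.TH783.CE
open Pool.Agent.Results.MP_a59382_lc.CubicEquations (PoleRel)
open Pool.Agent.Results.MP_a59382_lc.QuarticDoubleCovers (values)
open Pool.Agent.R565.PU (Unirational Dominated)

/-- A block: a finite union of sets of points which are empty or dominated over `K` by products of
affine spaces and of double covers `w² = f(z)` branched along smooth quartics. -/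
def Block {K : Type} [Field K] {n : ℕ} (S : Set (Fin n → K)) : Prop :=
  ∃ (k : ℕ) (Y : Fin k → Set (Fin n → K)), (∀ i, Dominated (Y i)) ∧ S = ⋃ i, Y i

theorem result :
    -- norm varieties are blocks
    (∀ (K L : Type) [Field K] [CharZero K] [Field L] [Algebra K L] [FiniteDimensional K L] (n : ℕ)
      (b : Basis (Fin n) K L) (c : K),
      Block {z : Fin n → K | Algebra.norm K (∑ i, z i • b i) = c}) ∧
    -- unirational sets and the blocks of the starting file are blocks
    (∀ (K : Type) [Field K] (n : ℕ) (Y : Set (Fin n → K)), Unirational Y → Block Y) ∧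
    (∀ (K : Type) [Field K] (n : ℕ) (S : Set (Fin (n + 1) → K)),
      QuarticDoubleCovers.Block S → Block S) ∧
    -- affine quadrics are blocks
    (∀ (K : Type) [Field K] [CharZero K] (n : ℕ) (f : MvPolynomial (Fin n) K),
      f.totalDegree ≤ 2 → Block {z : Fin n → K | eval z f = 0}) ∧
    -- an equation `f(a, b, z) = 0` does not define `R_K` if its solutions `(a, z)` form a block for one
    -- `b` without pole above the primes `1` modulo `4`
    (∀ (K : Type) [Field K] [NumberField K] (n : ℕ) (f : MvPolynomial (Fin 2 ⊕ Fin n) K),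
      (∃ b ∈ NoPole K {p | p % 4 = 1}, Block {x : Fin (n + 1) → K |
        eval (Sum.elim ![x 0, b] fun j => x j.succ) f = 0}) →
      ¬ ∀ a b : K, (∃ z : Fin n → K, eval (Sum.elim ![a, b] z) f = 0) ↔
        PoleRel K {p | p % 4 = 1} a b) ∧
    -- for every number field the relation `R_K` is not a finite union of such relations
    (∀ (K : Type) [Field K] [NumberField K]
      (k : ℕ) (n : Fin k → ℕ) (f : ∀ i, MvPolynomial (Fin 2 ⊕ Fin (n i)) K),
      (∀ i, ∀ m ∈ (f i).support, m (Sum.inl 0) + ∑ j, m (Sum.inr j) ≤ 3) →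
      ∀ (l : ℕ) (r : Fin l → ℕ) (d : ∀ i, Fin (r i) → ℕ)
        (S : ∀ i, K → ∀ j, Set (Fin (d i j + 1) → K))
        (p q : ∀ i, K → MvPolynomial ((j : Fin (r i)) × Fin (d i j + 1)) K),
      (∃ b ∈ NoPole K {p | p % 4 = 1}, ∀ i j, Block (S i b j)) →
      ¬ ∀ a b : K, ((∃ i, ∃ z : Fin (n i) → K, eval (Sum.elim ![a, b] z) (f i) = 0) ∨
          ∃ i, a ∈ values (S i b) (p i b) (q i b)) ↔ PoleRel K {p | p % 4 = 1} a b) ∧
    -- the general form, for every rich set of primes
    (∀ (K : Type) [Field K] [NumberField K] (Q : Set ℕ), Rich Q →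
      ∀ (k : ℕ) (n : Fin k → ℕ) (f : ∀ i, MvPolynomial (Fin 2 ⊕ Fin (n i)) K),
      (∀ i, ∀ m ∈ (f i).support, m (Sum.inl 0) + ∑ j, m (Sum.inr j) ≤ 3) →
      ∀ (l : ℕ) (r : Fin l → ℕ) (d : ∀ i, Fin (r i) → ℕ)
        (S : ∀ i, K → ∀ j, Set (Fin (d i j + 1) → K))
        (p q : ∀ i, K → MvPolynomial ((j : Fin (r i)) × Fin (d i j + 1)) K),
      ∀ b ∈ NoPole K Q, (∀ i j, Block (S i b j)) →
      (∀ a : K, ((∃ i, ∃ z : Fin (n i) → K, eval (Sum.elim ![a, b] z) (f i) = 0) ∨
          ∃ i, a ∈ values (S i b) (p i b) (q i b)) → PoleRel K Q a b) →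
      (∀ i, (values (S i b) (p i b) (q i b)).Finite) ∧
      Thin {a : K | (∃ i, ∃ z : Fin (n i) → K, eval (Sum.elim ![a, b] z) (f i) = 0) ∨
          ∃ i, a ∈ values (S i b) (p i b) (q i b)} ∧
      ∀ B : ℤ, ∃ m : ℤ, B < m ∧ PoleRel K Q (m : K) b ∧
        ¬ ((∃ i, ∃ z : Fin (n i) → K, eval (Sum.elim ![(m : K), b] z) (f i) = 0) ∨
          ∃ i, (m : K) ∈ values (S i b) (p i b) (q i b))) := by
  have main : ∀ (K : Type) [Field K] [NumberField K] (Q : Set ℕ), Rich Q →
      ∀ (k : ℕ) (n : Fin k → ℕ) (f : ∀ i, MvPolynomial (Fin 2 ⊕ Fin (n i)) K),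
      (∀ i, ∀ m ∈ (f i).support, m (Sum.inl 0) + ∑ j, m (Sum.inr j) ≤ 3) →
      ∀ (l : ℕ) (r : Fin l → ℕ) (d : ∀ i, Fin (r i) → ℕ)
        (S : ∀ i, K → ∀ j, Set (Fin (d i j + 1) → K))
        (p q : ∀ i, K → MvPolynomial ((j : Fin (r i)) × Fin (d i j + 1)) K),
      ∀ b ∈ NoPole K Q, (∀ i j, Block (S i b j)) →
      (∀ a : K, ((∃ i, ∃ z : Fin (n i) → K, eval (Sum.elim ![a, b] z) (f i) = 0) ∨
          ∃ i, a ∈ values (S i b) (p i b) (q i b)) → PoleRel K Q a b) →
      (∀ i, (values (S i b) (p i b) (q i b)).Finite) ∧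
      Thin {a : K | (∃ i, ∃ z : Fin (n i) → K, eval (Sum.elim ![a, b] z) (f i) = 0) ∨
          ∃ i, a ∈ values (S i b) (p i b) (q i b)} ∧
      ∀ B : ℤ, ∃ m : ℤ, B < m ∧ PoleRel K Q (m : K) b ∧
        ¬ ((∃ i, ∃ z : Fin (n i) → K, eval (Sum.elim ![(m : K), b] z) (f i) = 0) ∨
          ∃ i, (m : K) ∈ values (S i b) (p i b) (q i b)) := by
    intro K _ _ Q hQ k n f hf l r d S p q b hb hS h
    obtain ⟨φ⟩ : Nonempty (K →+* ℂ) := inferInstance
    have hno : ∀ a : K, PoleRel K Q a b → a ∈ NoPole K Q := by
      intro a ha v hv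
      by_contra hcon
      exact absurd (ha v hv (not_le.1 hcon)) (not_lt.2 (hb v hv))
    have hfin : ∀ i, (values (S i b) (p i b) (q i b)).Finite := fun i =>
      Pool.Agent.R565.PU.fin_vals2 (flat_noPole (K := K) hQ) φ (hS i) _ _
        fun t ht => hno t (h t (Or.inr ⟨i, ht⟩))
    have hthin : Thin {a : K | (∃ i, ∃ z : Fin (n i) → K, eval (Sum.elim ![a, b] z) (f i) = 0) ∨
        ∃ i, a ∈ values (S i b) (p i b) (q i b)} := by
      have h1 := thin_union (flat_noPole (K := K) hQ) b f hf
        (fun a ha => hno a (h a (Or.inl ha)))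
      have h2 : Thin (⋃ i, values (S i b) (p i b) (q i b)) :=
        Thin.of_finite (Set.finite_iUnion hfin)
      refine (h1.union h2).mono ?_
      rintro a (ha | ⟨i, ha⟩)
      · exact Or.inl ha
      · exact Or.inr (Set.mem_iUnion.2 ⟨i, ha⟩)
    refine ⟨hfin, hthin, fun B => ?_⟩
    obtain ⟨m, hm, hm'⟩ := hthin.exists_int B
    refine ⟨m, hm, fun v _ hv' => ?_, hm'⟩
    exfalso
    have h1 : v.valuation K ((m : NumberField.RingOfIntegers K) : K) ≤ 1 :=
      v.valuation_le_one (K := K) (m : NumberField.RingOfIntegers K)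
    have h2 : ((m : NumberField.RingOfIntegers K) : K) = (m : K) := by simp
    rw [h2] at h1
    exact absurd hv' (not_lt.2 h1)
  refine ⟨fun K L _ _ _ _ _ n b c => (Pool.Agent.R565.PU.norm_unirational b c).fu.blk2,
    fun K _ n Y hY => hY.fu.blk2, fun K _ n S hS => Pool.Agent.R565.PU.blk2_of_blk hS,
    fun K _ _ n f hf => (Pool.Agent.R565.PU.fu_quadric f hf).blk2, ?_, ?_, main⟩
  · intro K _ _ n f ⟨b, hb, hS⟩ hiff
    have hval : values (fun _ : Fin 1 => {x : Fin (n + 1) → K |
        eval (Sum.elim ![x 0, b] fun j => x j.succ) f = 0})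
        (X ⟨0, 0⟩ : MvPolynomial ((j : Fin 1) × Fin ((fun _ : Fin 1 => n) j + 1)) K) 1 =
        {a | ∃ z : Fin n → K, eval (Sum.elim ![a, b] z) f = 0} := by
      ext a
      constructor
      · rintro ⟨x, hx, -, rfl⟩
        refine ⟨fun j => x ⟨0, j.succ⟩, ?_⟩
        rw [eval_X, map_one, div_one]
        exact hx 0
      · rintro ⟨z, hz⟩
        refine ⟨fun y => Fin.cons (α := fun _ => K) a z y.2, fun _ => ?_, by simp, by simp⟩
        show eval (Sum.elim ![Fin.cons (α := fun _ => K) a z 0, b]
          fun j => Fin.cons (α := fun _ => K) a z j.succ) f = 0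
        simpa using hz
    obtain ⟨-, -, h1⟩ := main K {p | p % 4 = 1} four 0 Fin.elim0 (fun i => Fin.elim0 i)
      (fun i => Fin.elim0 i) 1 (fun _ => 1) (fun _ _ => n)
      (fun _ b' _ => {x : Fin (n + 1) → K | eval (Sum.elim ![x 0, b'] fun j => x j.succ) f = 0})
      (fun _ _ => X ⟨0, 0⟩) (fun _ _ => 1) b hb (fun _ _ => hS) (fun a ha => by
        rcases ha with ⟨i, -⟩ | ⟨i, hi⟩
        · exact Fin.elim0 i
        · have : a ∈ {a | ∃ z : Fin n → K, eval (Sum.elim ![a, b] z) f = 0} := by
            rw [← hval]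
            exact hi
          exact (hiff a b).1 this)
    obtain ⟨m, -, hm1, hm2⟩ := h1 0
    apply hm2
    refine Or.inr ⟨0, ?_⟩
    have : (m : K) ∈ {a | ∃ z : Fin n → K, eval (Sum.elim ![a, b] z) f = 0} := (hiff m b).2 hm1
    rw [← hval] at this
    exact this
  intro K _ _ k n f hf l r d S p q ⟨b, hb, hS⟩ hiff
  obtain ⟨-, -, h1⟩ := main K {p | p % 4 = 1} four k n f hf l r d S p q b hb hS
    fun a ha => (hiff a b).1 ha
  obtain ⟨m, -, hm1, hm2⟩ := h1 0
  exact hm2 ((hiff m b).2 hm1)

end Pool.Agent.Results.MP_a59382_lc.UnirationalFibres
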