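import Pool.Agent.R565.QF.Conv
import Pool.Agent.Results.MP_a59382_lc.UnirationalFibres

/-!
# The pole relation is not defined by families of quadratic equations over the line

Let `K` be a number field and let `Q` be a rich set of rational primes, for example the primes
`p = 1 mod 4`. The starting file `CubicEquations` excludes definitions of the relation `R_K` of the
problem by equations `f(a, b, z) = 0` of total degree at most three in `(a, z)`; all the
quantified variables `z` are subject to the degree condition. Here one quantified variable `w` is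
free of it: we consider relations

  `∃ w z, g(a, b, w, z) = 0`

with `g` of degree at most two in `(a, z)` and of arbitrary degree in `w` (and in `b`), any number of
variables `z` (quadric bundles over the `w`-line, of any kind: singular, reducible, without points,
…).

(1) `R_K` is not a finite union of such relations, of relations `∃ z, f(a, b, z) = 0` with `f` of
degree at most three in `(a, z)`, and of values of rational functions on products of blocks as in
`UnirationalFibres`.

(2) If, for some `b` without pole above `Q`, such a union implies the pole relation (that is, `a` has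
no pole above `Q`) then the union holds only for a thin set of elements `a`, and fails for
infinitely many rational integers `a`.

(3) Any number of free variables: if `∃ w z, g(a, b, w, z) = 0`, `w = (w₁, …, w_m)`, `g` of degree at
most two in `(a, z)`, implies the pole relation for some `b` without pole above `Q`, then for each
`w` there are at most two elements `a` with `∃ z, g(a, b, w, z) = 0`.

The proof. The ring of the elements without pole above `Q` is flat: a rational function in one
variable with values in it is constant. Let `q_w(a, z) = g(a, b, w, z)`. The lines through a zero of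
`q_w` show: either `q_w` is a polynomial in `a` alone, or the zero is a critical point of `q_w`. If
the first alternative holds for infinitely many `w` then `z` does not occur, and we have a plane
curve. Otherwise, if there are zeros for infinitely many `w`, then by linear algebra over `K(w)`
(the Fredholm alternative) there is a critical point with coordinates in `K(w)`, it is a zero, and
its first coordinate, a rational function of `w` with values in the flat ring, is constant.
-/

set_option autoImplicit false

namespace Pool.Agent.Results.MP_a59382_lc.QuadraticFamilies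

open MvPolynomial Pool.Agent.TH766.HP Pool.Agent.TH783.CE
open Pool.Agent.Results.MP_a59382_lc.CubicEquations (PoleRel)
open Pool.Agent.Results.MP_a59382_lc.QuarticDoubleCovers (values)
open Pool.Agent.Results.MP_a59382_lc.UnirationalFibres (Block)

/-- A finite union of relations between `a` and `b` of three kinds: equations `f(a, b, z) = 0`,
families of equations `g(a, b, w, z) = 0`, and values of rational functions `p / q` on products of
sets. -/
def Union {K : Type} [Field K] {k h l : ℕ} {n : Fin k → ℕ} {m : Fin h → ℕ}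
    (f : ∀ i, MvPolynomial (Fin 2 ⊕ Fin (n i)) K) (g : ∀ i, MvPolynomial (Fin 3 ⊕ Fin (m i)) K)
    {r : Fin l → ℕ} {d : ∀ i, Fin (r i) → ℕ} (S : ∀ i, K → ∀ j, Set (Fin (d i j + 1) → K))
    (p q : ∀ i, K → MvPolynomial ((j : Fin (r i)) × Fin (d i j + 1)) K) (a b : K) : Prop :=
  (∃ i, ∃ z : Fin (n i) → K, eval (Sum.elim ![a, b] z) (f i) = 0) ∨
  (∃ i, ∃ (w : K) (z : Fin (m i) → K), eval (Sum.elim ![a, b, w] z) (g i) = 0) ∨
  ∃ i, a ∈ values (S i b) (p i b) (q i b)

theorem result :
    -- (1) for every number field the relation `R_K` is not such a union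
    (∀ (K : Type) [Field K] [NumberField K] (k h l : ℕ) (n : Fin k → ℕ) (m : Fin h → ℕ)
      (f : ∀ i, MvPolynomial (Fin 2 ⊕ Fin (n i)) K) (g : ∀ i, MvPolynomial (Fin 3 ⊕ Fin (m i)) K),
      (∀ i, ∀ e ∈ (f i).support, e (Sum.inl 0) + ∑ j, e (Sum.inr j) ≤ 3) →
      (∀ i, ∀ e ∈ (g i).support, e (Sum.inl 0) + ∑ j, e (Sum.inr j) ≤ 2) →
      ∀ (r : Fin l → ℕ) (d : ∀ i, Fin (r i) → ℕ) (S : ∀ i, K → ∀ j, Set (Fin (d i j + 1) → K))
        (p q : ∀ i, K → MvPolynomial ((j : Fin (r i)) × Fin (d i j + 1)) K),
      (∃ b ∈ NoPole K {p | p % 4 = 1}, ∀ i j, Block (S i b j)) →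
      ¬ ∀ a b : K, Union f g S p q a b ↔ PoleRel K {p | p % 4 = 1} a b) ∧
    -- (2) the general form, for every rich set of primes
    (∀ (K : Type) [Field K] [NumberField K] (Q : Set ℕ), Rich Q →
      ∀ (k h l : ℕ) (n : Fin k → ℕ) (m : Fin h → ℕ)
      (f : ∀ i, MvPolynomial (Fin 2 ⊕ Fin (n i)) K) (g : ∀ i, MvPolynomial (Fin 3 ⊕ Fin (m i)) K),
      (∀ i, ∀ e ∈ (f i).support, e (Sum.inl 0) + ∑ j, e (Sum.inr j) ≤ 3) →
      (∀ i, ∀ e ∈ (g i).support, e (Sum.inl 0) + ∑ j, e (Sum.inr j) ≤ 2) →
      ∀ (r : Fin l → ℕ) (d : ∀ i, Fin (r i) → ℕ) (S : ∀ i, K → ∀ j, Set (Fin (d i j + 1) → K))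
        (p q : ∀ i, K → MvPolynomial ((j : Fin (r i)) × Fin (d i j + 1)) K),
      ∀ b ∈ NoPole K Q, (∀ i j, Block (S i b j)) →
      (∀ a : K, Union f g S p q a b → PoleRel K Q a b) →
      Thin {a : K | Union f g S p q a b} ∧
      ∀ B : ℤ, ∃ t : ℤ, B < t ∧ PoleRel K Q (t : K) b ∧ ¬ Union f g S p q (t : K) b) ∧
    -- (3) any number of free variables
    (∀ (K : Type) [Field K] [NumberField K] (Q : Set ℕ), Rich Q →
      ∀ (n m : ℕ) (g : MvPolynomial (Fin 2 ⊕ (Fin m ⊕ Fin n)) K),
      (∀ e ∈ g.support, e (Sum.inl 0) + ∑ j, e (Sum.inr (Sum.inr j)) ≤ 2) →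
      ∀ b ∈ NoPole K Q,
      (∀ (a : K) (w : Fin m → K) (z : Fin n → K),
        eval (Sum.elim ![a, b] (Sum.elim w z)) g = 0 → PoleRel K Q a b) →
      ∀ w : Fin m → K, ∃ e₁ e₂ : K, ∀ (a : K) (z : Fin n → K),
        eval (Sum.elim ![a, b] (Sum.elim w z)) g = 0 → a = e₁ ∨ a = e₂) := by
  have main : ∀ (K : Type) [Field K] [NumberField K] (Q : Set ℕ), Rich Q →
      ∀ (k h l : ℕ) (n : Fin k → ℕ) (m : Fin h → ℕ)
      (f : ∀ i, MvPolynomial (Fin 2 ⊕ Fin (n i)) K) (g : ∀ i, MvPolynomial (Fin 3 ⊕ Fin (m i)) K),
      (∀ i, ∀ e ∈ (f i).support, e (Sum.inl 0) + ∑ j, e (Sum.inr j) ≤ 3) →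
      (∀ i, ∀ e ∈ (g i).support, e (Sum.inl 0) + ∑ j, e (Sum.inr j) ≤ 2) →
      ∀ (r : Fin l → ℕ) (d : ∀ i, Fin (r i) → ℕ) (S : ∀ i, K → ∀ j, Set (Fin (d i j + 1) → K))
        (p q : ∀ i, K → MvPolynomial ((j : Fin (r i)) × Fin (d i j + 1)) K),
      ∀ b ∈ NoPole K Q, (∀ i j, Block (S i b j)) →
      (∀ a : K, Union f g S p q a b → PoleRel K Q a b) →
      Thin {a : K | Union f g S p q a b} ∧
      ∀ B : ℤ, ∃ t : ℤ, B < t ∧ PoleRel K Q (t : K) b ∧ ¬ Union f g S p q (t : K) b := by
    intro K _ _ Q hQ k h l n m f g hf hg r d S p q b hb hS hU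
    have hno : ∀ a : K, PoleRel K Q a b → a ∈ NoPole K Q := by
      intro a ha v hv
      by_contra hcon
      exact absurd (ha v hv (not_le.1 hcon)) (not_lt.2 (hb v hv))
    obtain ⟨-, -, -, -, -, -, hUF⟩ := UnirationalFibres.result
    obtain ⟨-, h1, -⟩ := hUF K Q hQ k n f hf l r d S p q b hb hS fun a ha => hU a (by
      rcases ha with ha | ha
      · exact Or.inl ha
      · exact Or.inr (Or.inr ha))
    have h2 : Thin (⋃ i ∈ (Set.univ : Set (Fin h)), {a : K | ∃ (w : K) (z : Fin (m i) → K),
        eval (Sum.elim ![a, b, w] z) (g i) = 0}) := by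
      refine Thin.biUnion Set.finite_univ fun i _ => ?_
      exact Pool.Agent.R565.QF.thin_param (flat_noPole (K := K) hQ) b (g i) (hg i)
        fun a w z hz => hno a (hU a (Or.inr (Or.inl ⟨i, w, z, hz⟩)))
    have hthin : Thin {a : K | Union f g S p q a b} := by
      refine (h1.union h2).mono ?_
      rintro a (ha | ⟨i, ha⟩ | ha)
      · exact Or.inl (Or.inl ha)
      · exact Or.inr (Set.mem_biUnion (Set.mem_univ i) ha)
      · exact Or.inl (Or.inr ha)
    refine ⟨hthin, fun B => ?_⟩
    obtain ⟨t, ht, ht'⟩ := hthin.exists_int B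
    refine ⟨t, ht, fun v _ hv' => ?_, ht'⟩
    exfalso
    have h3 : v.valuation K ((t : NumberField.RingOfIntegers K) : K) ≤ 1 :=
      v.valuation_le_one (K := K) (t : NumberField.RingOfIntegers K)
    have h4 : ((t : NumberField.RingOfIntegers K) : K) = (t : K) := by simp
    rw [h4] at h3
    exact absurd hv' (not_lt.2 h3)
  refine ⟨?_, main, ?_⟩
  · intro K _ _ k h l n m f g hf hg r d S p q ⟨b, hb, hS⟩ hiff
    obtain ⟨-, h1⟩ := main K {p | p % 4 = 1} four k h l n m f g hf hg r d S p q b hb hS
      fun a ha => (hiff a b).1 ha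
    obtain ⟨t, -, ht1, ht2⟩ := h1 0
    exact ht2 ((hiff t b).2 ht1)
  · intro K _ _ Q hQ n m g hg b hb hU w
    have hno : ∀ a : K, PoleRel K Q a b → a ∈ NoPole K Q := by
      intro a ha v hv
      by_contra hcon
      exact absurd (ha v hv (not_le.1 hcon)) (not_lt.2 (hb v hv))
    obtain ⟨P, hPd, hP⟩ : ∃ P : MvPolynomial (Fin (n + 1)) K, P.totalDegree ≤ 2 ∧
        ∀ x : Fin (n + 1) → K, eval x P =
          eval (Sum.elim ![x 0, b] (Sum.elim w fun j => x j.succ)) g := by
      refine ⟨g.eval₂ C (Sum.elim ![X 0, C b] (Sum.elim (fun i => C (w i)) fun j => X j.succ)),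
        ?_, fun x => ?_⟩
      · rw [eval₂_eq']
        refine totalDegree_finsetSum_le fun e he => ?_
        refine (totalDegree_mul _ _).trans ?_
        rw [totalDegree_C, zero_add]
        refine (totalDegree_finsetProd _ _).trans ?_
        refine le_trans ?_ (hg e he)
        rw [Fintype.sum_sum_type, Fintype.sum_sum_type, Fin.sum_univ_two]
        have e1 : (totalDegree ((Sum.elim ![X 0, C b] (Sum.elim (fun i => C (w i))
            fun j : Fin n => X j.succ) (Sum.inl 0) : MvPolynomial (Fin (n + 1)) K) ^
            e (Sum.inl 0))) ≤ e (Sum.inl 0) := by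
          refine (totalDegree_pow _ _).trans ?_
          simp
        have e2 : (totalDegree ((Sum.elim ![X 0, C b] (Sum.elim (fun i => C (w i))
            fun j : Fin n => X j.succ) (Sum.inl 1) : MvPolynomial (Fin (n + 1)) K) ^
            e (Sum.inl 1))) ≤ 0 := by
          refine (totalDegree_pow _ _).trans ?_
          simp
        have e3 : ∀ i : Fin m, (totalDegree ((Sum.elim ![X 0, C b] (Sum.elim (fun i => C (w i))
            fun j : Fin n => X j.succ) (Sum.inr (Sum.inl i)) : MvPolynomial (Fin (n + 1)) K) ^
            e (Sum.inr (Sum.inl i)))) ≤ 0 := by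
          intro i
          refine (totalDegree_pow _ _).trans ?_
          simp
        have e4 : ∀ j : Fin n, (totalDegree ((Sum.elim ![X 0, C b] (Sum.elim (fun i => C (w i))
            fun j : Fin n => X j.succ) (Sum.inr (Sum.inr j)) : MvPolynomial (Fin (n + 1)) K) ^
            e (Sum.inr (Sum.inr j)))) ≤ e (Sum.inr (Sum.inr j)) := by
          intro j
          refine (totalDegree_pow _ _).trans ?_
          simp
        have e5 := Finset.sum_le_sum fun j (_ : j ∈ (Finset.univ : Finset (Fin n))) => e4 j
        have e6 := Finset.sum_le_sum fun j (_ : j ∈ (Finset.univ : Finset (Fin m))) => e3 j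
        rw [Finset.sum_const_zero] at e6
        omega
      · rw [eval_eval₂]
        have h1 : (eval x).comp (C : K →+* MvPolynomial (Fin (n + 1)) K) = RingHom.id K := by
          ext r
          simp
        have h2 : (fun s => eval x (Sum.elim ![X 0, C b] (Sum.elim (fun i => C (w i))
            fun j : Fin n => X j.succ) s)) =
            Sum.elim ![x 0, b] (Sum.elim w fun j => x j.succ) := by
          funext s
          rcases s with s | s | s
          · fin_cases s
            · simp
            · simp
          · simp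
          · simp
        rw [h1, h2]
        rfl
    obtain ⟨e₁, e₂, he⟩ := Pool.Agent.R565.QF.two_param (flat_noPole (K := K) hQ) P hPd
      fun x hx => hno _ (hU _ w _ (by rwa [hP] at hx))
    refine ⟨e₁, e₂, fun a z hz => ?_⟩
    have h1 := he (Fin.cons a z : Fin (n + 1) → K) (by
      rw [hP]
      simpa using hz)
    simpa using h1

end Pool.Agent.Results.MP_a59382_lc.QuadraticFamilies
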