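import Pool.Agent.R565.QR.Rel
import Pool.Agent.Results.MP_a59382_lc.QuadraticFamilies

/-!
# The pole relation over `ℚ` and quadratic forms of rank at least five

We consider relations between `a, b ∈ ℚ` given by a quadratic equation in the quantified variables
`z`, whose coefficients are arbitrary polynomials in `a` and `b` (and further quantified variables
`w`):

  `∃ w z, (1, z)ᵀ A(a, b, w) (1, z) = 0`,   `A` a symmetric matrix of polynomials.

In `CubicEquations` and `QuadraticFamilies` the degree in `a` is bounded, here it is not.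

(1) `R_ℚ` is not a finite union of relations as in `QuadraticFamilies` and of relations
`∃ z, (1, z)ᵀ A(a, b) (1, z) = 0` such that (for one `b` without pole above the primes `1 mod 4`) the
rank of `A(a, b)` is at least five for some `a`.

(2) If such a union implies the pole relation for one `b` without pole then it holds for a thin set
of elements `a` only, and the relations of the second kind hold for finitely many `a` only.

(3) This holds without any condition on the set `Q` of primes, if there is a prime in `Q`: if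
`∃ z, (1, z)ᵀ A(a, b) (1, z) = 0` implies the pole relation, `b` has no pole above `Q` and the rank of
`A(a, b)` is at least five for some `a`, then it holds for finitely many `a` only.

(4) Any number of free variables `w`: if `∃ w z, (1, z)ᵀ A(a, b, w) (1, z) = 0` implies the pole
relation for a `b` without pole above `Q`, then for all its solutions `(a, w, z)` the rank of
`A(a, b, w)` is at most four or it is less than the generic rank.

The proof. Over a rational point of the `(a, w)`-space at which the rank is maximal and at least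
five the existence of a rational solution is an open condition in the real topology: real solutions
deform, and by the theorem of Meyer the rational solutions are dense in the real ones. Near every
rational number there are rational numbers with a pole at a given prime.
-/

set_option autoImplicit false

namespace Pool.Agent.Results.MP_a59382_lc.RankFive

open MvPolynomial Pool.Agent.TH766.HP Pool.Agent.TH783.CE
open Pool.Agent.Results.MP_a59382_lc.CubicEquations (PoleRel)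
open Pool.Agent.Results.MP_a59382_lc.QuadraticFamilies (Union)
open Pool.Agent.Results.MP_a59382_lc.UnirationalFibres (Block)
open Pool.Agent.R565.QR (spec Solvable)

theorem result :
    -- (1) the relation `R_ℚ` is not such a union
    (∀ (k h l s : ℕ) (n : Fin k → ℕ) (m : Fin h → ℕ)
      (f : ∀ i, MvPolynomial (Fin 2 ⊕ Fin (n i)) ℚ) (g : ∀ i, MvPolynomial (Fin 3 ⊕ Fin (m i)) ℚ),
      (∀ i, ∀ e ∈ (f i).support, e (Sum.inl 0) + ∑ j, e (Sum.inr j) ≤ 3) →
      (∀ i, ∀ e ∈ (g i).support, e (Sum.inl 0) + ∑ j, e (Sum.inr j) ≤ 2) →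
      ∀ (r : Fin l → ℕ) (d : ∀ i, Fin (r i) → ℕ) (S : ∀ i, ℚ → ∀ j, Set (Fin (d i j + 1) → ℚ))
        (p q : ∀ i, ℚ → MvPolynomial ((j : Fin (r i)) × Fin (d i j + 1)) ℚ)
        (t : Fin s → ℕ)
        (A : ∀ i, Matrix (Fin (t i + 1)) (Fin (t i + 1)) (MvPolynomial (Fin 2 ⊕ Fin 0) ℚ)),
      (∀ i, (A i).IsSymm) →
      (∃ b ∈ NoPole ℚ {p | p % 4 = 1}, (∀ i j, Block (S i b j)) ∧
        ∀ i, ∃ a, 5 ≤ (spec (A i) a b Fin.elim0).rank) →
      ¬ ∀ a b : ℚ, (Union f g S p q a b ∨ ∃ i, Solvable (A i) a b) ↔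
        PoleRel ℚ {p | p % 4 = 1} a b) ∧
    -- (2) the general form, for every rich set of primes
    (∀ (Q : Set ℕ), Rich Q → ∀ (k h l s : ℕ) (n : Fin k → ℕ) (m : Fin h → ℕ)
      (f : ∀ i, MvPolynomial (Fin 2 ⊕ Fin (n i)) ℚ) (g : ∀ i, MvPolynomial (Fin 3 ⊕ Fin (m i)) ℚ),
      (∀ i, ∀ e ∈ (f i).support, e (Sum.inl 0) + ∑ j, e (Sum.inr j) ≤ 3) →
      (∀ i, ∀ e ∈ (g i).support, e (Sum.inl 0) + ∑ j, e (Sum.inr j) ≤ 2) →
      ∀ (r : Fin l → ℕ) (d : ∀ i, Fin (r i) → ℕ) (S : ∀ i, ℚ → ∀ j, Set (Fin (d i j + 1) → ℚ))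
        (p q : ∀ i, ℚ → MvPolynomial ((j : Fin (r i)) × Fin (d i j + 1)) ℚ)
        (t : Fin s → ℕ)
        (A : ∀ i, Matrix (Fin (t i + 1)) (Fin (t i + 1)) (MvPolynomial (Fin 2 ⊕ Fin 0) ℚ)),
      (∀ i, (A i).IsSymm) →
      ∀ b ∈ NoPole ℚ Q, (∀ i j, Block (S i b j)) →
      (∀ i, ∃ a, 5 ≤ (spec (A i) a b Fin.elim0).rank) →
      (∀ a : ℚ, (Union f g S p q a b ∨ ∃ i, Solvable (A i) a b) → PoleRel ℚ Q a b) →
      (∀ i, {a | Solvable (A i) a b}.Finite) ∧
      Thin {a : ℚ | Union f g S p q a b ∨ ∃ i, Solvable (A i) a b} ∧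
      ∀ B : ℤ, ∃ u : ℤ, B < u ∧ PoleRel ℚ Q (u : ℚ) b ∧
        ¬ (Union f g S p q (u : ℚ) b ∨ ∃ i, Solvable (A i) (u : ℚ) b)) ∧
    -- (3) every set of primes
    (∀ (Q : Set ℕ), (∃ p ∈ Q, p.Prime) → ∀ (m : ℕ)
      (A : Matrix (Fin (m + 1)) (Fin (m + 1)) (MvPolynomial (Fin 2 ⊕ Fin 0) ℚ)), A.IsSymm →
      ∀ b ∈ NoPole ℚ Q, (∃ a, 5 ≤ (spec A a b Fin.elim0).rank) →
      (∀ a : ℚ, Solvable A a b → PoleRel ℚ Q a b) → {a | Solvable A a b}.Finite) ∧
    -- (4) every set of primes, any number of free variables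
    (∀ (Q : Set ℕ), (∃ p ∈ Q, p.Prime) → ∀ (k m : ℕ)
      (A : Matrix (Fin (m + 1)) (Fin (m + 1)) (MvPolynomial (Fin 2 ⊕ Fin k) ℚ)), A.IsSymm →
      ∀ b ∈ NoPole ℚ Q, (∀ a : ℚ, Solvable A a b → PoleRel ℚ Q a b) →
      ∀ (a : ℚ) (w : Fin k → ℚ) (y : Fin (m + 1) → ℚ), y 0 = 1 →
        y ⬝ᵥ (spec A a b w).mulVec y = 0 →
        (spec A a b w).rank ≤ 4 ∨ ∃ a' w', (spec A a b w).rank < (spec A a' b w').rank) := by
  have hno : ∀ (Q : Set ℕ) (b : ℚ), b ∈ NoPole ℚ Q → ∀ a : ℚ, PoleRel ℚ Q a b →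
      a ∈ NoPole ℚ Q := by
    intro Q b hb a ha v hv
    by_contra hcon
    exact absurd (ha v hv (not_le.1 hcon)) (not_lt.2 (hb v hv))
  have h3 : ∀ (Q : Set ℕ), (∃ p ∈ Q, p.Prime) → ∀ (m : ℕ)
      (A : Matrix (Fin (m + 1)) (Fin (m + 1)) (MvPolynomial (Fin 2 ⊕ Fin 0) ℚ)), A.IsSymm →
      ∀ b ∈ NoPole ℚ Q, (∃ a, 5 ≤ (spec A a b Fin.elim0).rank) →
      (∀ a : ℚ, Solvable A a b → PoleRel ℚ Q a b) → {a | Solvable A a b}.Finite := by
    rintro Q ⟨p, hpQ, hp⟩ m A hA b hb h5 h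
    exact Pool.Agent.R565.QR.finite_solvable hp hpQ hA h5 fun a ha => hno Q b hb a (h a ha)
  have main : ∀ (Q : Set ℕ), Rich Q → ∀ (k h l s : ℕ) (n : Fin k → ℕ) (m : Fin h → ℕ)
      (f : ∀ i, MvPolynomial (Fin 2 ⊕ Fin (n i)) ℚ) (g : ∀ i, MvPolynomial (Fin 3 ⊕ Fin (m i)) ℚ),
      (∀ i, ∀ e ∈ (f i).support, e (Sum.inl 0) + ∑ j, e (Sum.inr j) ≤ 3) →
      (∀ i, ∀ e ∈ (g i).support, e (Sum.inl 0) + ∑ j, e (Sum.inr j) ≤ 2) →
      ∀ (r : Fin l → ℕ) (d : ∀ i, Fin (r i) → ℕ) (S : ∀ i, ℚ → ∀ j, Set (Fin (d i j + 1) → ℚ))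
        (p q : ∀ i, ℚ → MvPolynomial ((j : Fin (r i)) × Fin (d i j + 1)) ℚ)
        (t : Fin s → ℕ)
        (A : ∀ i, Matrix (Fin (t i + 1)) (Fin (t i + 1)) (MvPolynomial (Fin 2 ⊕ Fin 0) ℚ)),
      (∀ i, (A i).IsSymm) →
      ∀ b ∈ NoPole ℚ Q, (∀ i j, Block (S i b j)) →
      (∀ i, ∃ a, 5 ≤ (spec (A i) a b Fin.elim0).rank) →
      (∀ a : ℚ, (Union f g S p q a b ∨ ∃ i, Solvable (A i) a b) → PoleRel ℚ Q a b) →
      (∀ i, {a | Solvable (A i) a b}.Finite) ∧
      Thin {a : ℚ | Union f g S p q a b ∨ ∃ i, Solvable (A i) a b} ∧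
      ∀ B : ℤ, ∃ u : ℤ, B < u ∧ PoleRel ℚ Q (u : ℚ) b ∧
        ¬ (Union f g S p q (u : ℚ) b ∨ ∃ i, Solvable (A i) (u : ℚ) b) := by
    intro Q hQ k h l s n m f g hf hg r d S p q t A hA b hb hS h5 hU
    obtain ⟨p', hp', hpQ', -⟩ := hQ ∅ 0 (by simp)
    have hfin : ∀ i, {a | Solvable (A i) a b}.Finite := fun i =>
      h3 Q ⟨p', hpQ', hp'.out⟩ (t i) (A i) (hA i) b hb (h5 i) fun a ha => hU a (Or.inr ⟨i, ha⟩)
    obtain ⟨h1, -⟩ := QuadraticFamilies.result.2.1 ℚ Q hQ k h l n m f g hf hg r d S p q b hb hS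
      fun a ha => hU a (Or.inl ha)
    have hthin : Thin {a : ℚ | Union f g S p q a b ∨ ∃ i, Solvable (A i) a b} := by
      refine (h1.union (Thin.of_finite (Set.finite_iUnion hfin))).mono ?_
      rintro a (ha | ⟨i, ha⟩)
      · exact Or.inl ha
      · exact Or.inr (Set.mem_iUnion.2 ⟨i, ha⟩)
    refine ⟨hfin, hthin, fun B => ?_⟩
    obtain ⟨u, hu, hu'⟩ := hthin.exists_int B
    refine ⟨u, hu, fun v _ hv' => ?_, hu'⟩
    exfalso
    have h6 : v.valuation ℚ ((u : NumberField.RingOfIntegers ℚ) : ℚ) ≤ 1 :=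
      v.valuation_le_one (K := ℚ) (u : NumberField.RingOfIntegers ℚ)
    have h7 : ((u : NumberField.RingOfIntegers ℚ) : ℚ) = (u : ℚ) := by simp
    rw [h7] at h6
    exact absurd hv' (not_lt.2 h6)
  refine ⟨?_, main, h3, ?_⟩
  · intro k h l s n m f g hf hg r d S p q t A hA ⟨b, hb, hS, h5⟩ hiff
    obtain ⟨-, -, h1⟩ := main {p | p % 4 = 1} four k h l s n m f g hf hg r d S p q t A hA b hb hS
      h5 fun a ha => (hiff a b).1 ha
    obtain ⟨u, -, hu1, hu2⟩ := h1 0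
    exact hu2 ((hiff u b).2 hu1)
  · rintro Q ⟨p, hpQ, hp⟩ k m A hA b hb h a w y hy0 hy
    exact Pool.Agent.R565.QR.rank_drop hp hpQ hA (fun a ha => hno Q b hb a (h a ha)) hy0 hy

end Pool.Agent.Results.MP_a59382_lc.RankFive
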